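import Pool.Agent.H.MP_b77b2b_ag.UMain

/-!
# Flattening equations of secant varieties: a quadratic number of factors is enough up to radical

The definitions follow the frozen statement of the problem. All coordinates are taken in bases, so
`W_i` is `Fin (d i) → ℂ`, a tensor is a function on words `(i : Fin n) → Fin (d i)`, and a pure
tensor is a product of vectors.
-/

set_option autoImplicit false

open MvPolynomial

namespace Pool.Agent.Results.MP_b77b2b_ag.FactorBound

/-- The polynomial `p` vanishes on all sums of `k` pure tensors, i.e. it lies in the ideal of the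
`k`-th secant variety of the Segre variety with factors of dimensions `d i`. -/
def Vanishes (k : ℕ) {n : ℕ} (d : Fin n → ℕ) (p : MvPolynomial ((i : Fin n) → Fin (d i)) ℂ) :
    Prop :=
  ∀ v : Fin k → (i : Fin n) → Fin (d i) → ℂ, eval (fun x => ∑ j, ∏ i, v j i (x i)) p = 0

/-- The ideal generated by the flattening equations from `m` factors, exactly as in the frozen
statement of the problem (the blocks of the grouping `σ` may be empty). -/
noncomputable def Flat (k m : ℕ) {n : ℕ} (d : Fin n → ℕ) :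
    Ideal (MvPolynomial ((i : Fin n) → Fin (d i)) ℂ) :=
  Ideal.span {r | ∃ σ : Fin n → Fin m,
    ∃ q : MvPolynomial ((b : Fin m) → ((i : {i : Fin n // σ i = b}) → Fin (d i.1))) ℂ,
      (∀ v : Fin k → (b : Fin m) → ((i : {i : Fin n // σ i = b}) → Fin (d i.1)) → ℂ,
          eval (fun g => ∑ j, ∏ b, v j b (g b)) q = 0) ∧
      r = rename (fun (g : (b : Fin m) → ((i : {i : Fin n // σ i = b}) → Fin (d i.1)))
          (i : Fin n) => g (σ i) ⟨i, rfl⟩) q}

theorem coarse_of_flat {k m n : ℕ} {d : Fin n → ℕ} {T : ((i : Fin n) → Fin (d i)) → ℂ}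
    (hT : ∀ p ∈ Flat k m d, eval T p = 0) : Pentad.Coarse T k m := by
  intro σ q hq
  have h1 := hT _ (Ideal.subset_span ⟨σ, q, hq, rfl⟩)
  rw [eval_rename] at h1
  exact h1

theorem zero_bound {k m n : ℕ} (hk : 1 ≤ k) (hm : k ^ 2 + k ≤ m) (hn : m < n) {d : Fin n → ℕ}
    {T : ((i : Fin n) → Fin (d i)) → ℂ} (hT : ∀ p ∈ Flat k m d, eval T p = 0)
    {p : MvPolynomial ((i : Fin n) → Fin (d i)) ℂ} (hp : Vanishes k d p) : eval T p = 0 := by
  have hne : Nonempty (Fin n) := ⟨⟨0, by omega⟩⟩
  exact Pentad.main_set hk hm (coarse_of_flat hT) hp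

theorem result : ∀ k : ℕ, 1 ≤ k → ∀ n' : ℕ, k ^ 2 + k ≤ n' → ∀ n : ℕ, n' < n →
    ∀ d : Fin n → ℕ, ∀ p : MvPolynomial ((i : Fin n) → Fin (d i)) ℂ,
      Vanishes k d p → p ∈ (Flat k n' d).radical := by
  intro k hk n' hn' n hn d p hp
  rw [← vanishingIdeal_zeroLocus_eq_radical (K := ℂ) (Flat k n' d), mem_vanishingIdeal_iff]
  intro T hT
  rw [aeval_eq_eval]
  refine zero_bound hk hn' hn (fun q hq => ?_) hp
  have h1 := hT q hq
  rwa [aeval_eq_eval] at h1

end Pool.Agent.Results.MP_b77b2b_ag.FactorBound
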