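import Pool.Agent.H.MP_b77b2b_ag.Main

/-!
# Flattening equations of secant varieties: how many factors are needed

The definitions follow the frozen statement of the problem. All coordinates are taken in bases, so
`W_i` is `Fin (d i) → ℂ`, a tensor is a function on words `(i : Fin n) → Fin (d i)`, and a pure
tensor is a product of vectors.
-/

set_option autoImplicit false

open MvPolynomial

namespace Pool.Agent.Results.MP_b77b2b_ag.FactorGrowth

/-- The polynomial `p` vanishes on all sums of `k` pure tensors, i.e. it lies in the ideal of the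
`k`-th secant variety of the Segre variety with factors of dimensions `d i`. -/
def Vanishes (k : ℕ) {n : ℕ} (d : Fin n → ℕ) (p : MvPolynomial ((i : Fin n) → Fin (d i)) ℂ) :
    Prop :=
  ∀ v : Fin k → (i : Fin n) → Fin (d i) → ℂ, eval (fun x => ∑ j, ∏ i, v j i (x i)) p = 0

/-- The ideal generated by the flattening equations from `m` factors (the blocks of the grouping
`σ` may be empty, so this contains the ideals for fewer factors and for nonempty blocks). -/
noncomputable def Flat (k m : ℕ) {n : ℕ} (d : Fin n → ℕ) : Ideal (MvPolynomial ((i : Fin n) → Fin (d i)) ℂ) :=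
  Ideal.span {r | ∃ σ : Fin n → Fin m,
    ∃ q : MvPolynomial ((b : Fin m) → ((i : {i : Fin n // σ i = b}) → Fin (d i.1))) ℂ,
      (∀ v : Fin k → (b : Fin m) → ((i : {i : Fin n // σ i = b}) → Fin (d i.1)) → ℂ,
          eval (fun g => ∑ j, ∏ b, v j b (g b)) q = 0) ∧
      r = rename (fun (g : (b : Fin m) → ((i : {i : Fin n // σ i = b}) → Fin (d i.1)))
          (i : Fin n) => g (σ i) ⟨i, rfl⟩) q}

/-- For more than `m` factors the flattening equations from `m` factors define the `k`-th secant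
variety as a set. (In particular this holds if `m` is an admissible `n'` for `k` in the problem,
that is, if these equations generate the ideal.) -/
def ZeroBound (k m : ℕ) : Prop :=
  ∀ n : ℕ, m < n → ∀ (d : Fin n → ℕ) (T : ((i : Fin n) → Fin (d i)) → ℂ),
    (∀ p ∈ Flat k m d, eval T p = 0) →
      ∀ p : MvPolynomial ((i : Fin n) → Fin (d i)) ℂ, Vanishes k d p → eval T p = 0

theorem two_choose (D : ℕ) : 2 * D.choose 2 = D * D - D := by
  rw [Nat.choose_two_right, Nat.mul_div_cancel' (Nat.even_mul_pred_self D).two_dvd,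
    Nat.mul_sub, Nat.mul_one]

theorem succ_choose (D : ℕ) : (D + 1).choose 2 = D.choose 2 + D := by
  rw [Nat.choose_succ_succ' D 1, Nat.choose_one_right, add_comm]

/-- Tensors in the zero set of all flattening equations from few factors, outside the secant
variety. -/
theorem witness {D c r k N : ℕ} (hD : 5 ≤ D) (hc1 : 1 ≤ c) (hc : 2 * c ≤ D)
    (hk : k + c = D.choose 2 + 2 + r) (hN : N + c = (D + 1).choose 2 + 2) :
    ∃ T : ((i : Fin N) → Fin ((fun _ => r + 2) i)) → ℂ,
      (∀ m : ℕ, m + 2 * c ≤ (D + 1).choose 2 →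
        ∀ p ∈ Flat k m (fun _ : Fin N => r + 2), eval T p = 0) ∧
      ∃ p, Vanishes k (fun _ : Fin N => r + 2) p ∧ eval T p ≠ 0 := by
  have h1 := two_choose D
  have h2 := succ_choose D
  have h3 : 5 * D ≤ D * D := Nat.mul_le_mul_right D hD
  obtain ⟨ρ, hρ⟩ : ∃ ρ, D.choose 2 = ρ + c := ⟨D.choose 2 - c, by omega⟩
  obtain ⟨n, hn⟩ : ∃ n, N = n + 2 := ⟨N - 2, by omega⟩
  subst hn
  obtain ⟨T, p, hp1, hp2, hT⟩ := Pentad.main (D := D) (c := c) (r := r) (ρ := ρ) (n := n) (k := k)
    hD hc1 hc (by omega) (by omega) (by omega)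
  refine ⟨T, fun m hm p hp => ?_, p, hp1, hp2⟩
  have hle : Flat k m (fun _ : Fin (n + 2) => r + 2) ≤ RingHom.ker (eval T) := by
    refine Ideal.span_le.2 ?_
    rintro f ⟨σ, q, hq, rfl⟩
    exact RingHom.mem_ker.2 (hT m (by omega) σ q hq)
  exact RingHom.mem_ker.1 (hle hp)

theorem bound {D c r k m : ℕ} (hD : 5 ≤ D) (hc1 : 1 ≤ c) (hc : 2 * c ≤ D)
    (hk : k + c = D.choose 2 + 2 + r) (h : ZeroBound k m) :
    (D + 1).choose 2 + 1 ≤ m + 2 * c := by
  by_contra hcon
  obtain ⟨N, hN⟩ : ∃ N, N + c = (D + 1).choose 2 + 2 := by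
    have h1 := two_choose D
    have h2 := succ_choose D
    exact ⟨(D + 1).choose 2 + 2 - c, by omega⟩
  obtain ⟨T, hT, p, hp1, hp2⟩ := witness hD hc1 hc hk hN
  exact hp2 (h N (by omega) _ T (hT m (by omega)) p hp1)

theorem exists_D (k : ℕ) (hk : 11 ≤ k) : ∃ D, 5 ≤ D ∧ D.choose 2 + 1 ≤ k ∧ k ≤ (D + 1).choose 2 := by
  induction k, hk using Nat.le_induction with
  | base => exact ⟨5, le_rfl, by decide, by decide⟩
  | succ k _ ih =>
    obtain ⟨D, hD, h1, h2⟩ := ih
    by_cases h3 : k + 1 ≤ (D + 1).choose 2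
    · exact ⟨D, hD, by omega, h3⟩
    · refine ⟨D + 1, by omega, by omega, ?_⟩
      rw [succ_choose (D + 1)]
      omega

theorem growth {k m : ℕ} (hk : 10 ≤ k) (h : ZeroBound k m) :
    k + 1 ≤ m ∧ 2 * k < (2 * (m - k) + 5) ^ 2 := by
  rcases Nat.eq_or_lt_of_le hk with rfl | hk
  · have h6 := bound (D := 5) (c := 2) (r := 0) (k := 10) le_rfl (by omega) (by omega)
      (by decide) h
    have h7 : (5 + 1).choose 2 = 15 := by decide
    have h8 : 12 ≤ m := by omega
    refine ⟨by omega, ?_⟩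
    calc 2 * 10 < 9 ^ 2 := by norm_num
      _ ≤ (2 * (m - 10) + 5) ^ 2 := Nat.pow_le_pow_left (by omega) 2
  obtain ⟨D, hD, h1, h2⟩ := exists_D k hk
  have h3 := two_choose D
  have h4 := succ_choose D
  have h5 : D ≤ D * D := Nat.le_mul_self D
  have key : k + 1 ≤ m ∧ D + 1 ≤ 2 * (m - k) + 5 := by
    by_cases hs : 2 * (k - (D.choose 2 + 1)) ≤ D
    · have h6 := bound (D := D) (c := 1) (r := k - (D.choose 2 + 1)) hD le_rfl (by omega)
        (by omega) h
      omega
    · have h6 := bound (D := D + 1) (c := (D + 1).choose 2 + 2 - k) (r := 0) (by omega) (by omega)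
        (by omega) (by omega) h
      have h7 := succ_choose (D + 1)
      omega
  refine ⟨key.1, ?_⟩
  have h6 : 2 * k ≤ D * D + D := by omega
  calc 2 * k ≤ D * D + D := h6
    _ < (D + 1) ^ 2 := by nlinarith
    _ ≤ (2 * (m - k) + 5) ^ 2 := Nat.pow_le_pow_left key.2 2

theorem result : ∀ k m : ℕ, 10 ≤ k → ZeroBound k m →
    k + 1 ≤ m ∧ 2 * k < (2 * (m - k) + 5) ^ 2 ∧
    ∀ D : ℕ, 5 ≤ D → D.choose 2 + 2 ≤ k + D / 2 →
      (k : ℤ) + D - 2 - |(k : ℤ) - (D.choose 2 + 1)| ≤ m := by
  intro k m hk h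
  refine ⟨(growth hk h).1, (growth hk h).2, fun D hD hkD => ?_⟩
  have h1 := succ_choose D
  rcases le_total (D.choose 2 + 1) k with hs | hs
  · have h2 := bound (D := D) (c := 1) (r := k - (D.choose 2 + 1)) hD le_rfl (by omega)
      (by omega) h
    rw [abs_of_nonneg (by omega)]
    omega
  · have h2 := bound (D := D) (c := D.choose 2 + 2 - k) (r := 0) hD (by omega) (by omega)
      (by omega) h
    rw [abs_of_nonpos (by omega)]
    omega

end Pool.Agent.Results.MP_b77b2b_ag.FactorGrowth
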