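import Pool.Agent.H.MP_b77b2b_ag.W12

/-!
# Flattening equations of secant varieties: the ideal statement wherever some flattening has rank k

The definitions `Vanishes` and `Flat` follow the frozen statement of the problem. All coordinates
are taken in bases, so `W_i` is `Fin (d i) → ℂ`, a tensor is a function on words
`(i : Fin n) → Fin (d i)`, and a pure tensor is a product of vectors. `Minor A x y` is the minor of
order `k` of the flattening with rows the words on `A` and columns the words off `A`.
-/

set_option autoImplicit false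

open MvPolynomial

namespace Pool.Agent.Results.MP_b77b2b_ag.IdealLocal

/-- The polynomial `p` vanishes on all sums of `k` pure tensors, i.e. it lies in the ideal of the
`k`-th secant variety of the Segre variety with factors of dimensions `d i`. -/
def Vanishes (k : ℕ) {n : ℕ} (d : Fin n → ℕ) (p : MvPolynomial ((i : Fin n) → Fin (d i)) ℂ) :
    Prop :=
  ∀ v : Fin k → (i : Fin n) → Fin (d i) → ℂ, eval (fun x => ∑ j, ∏ i, v j i (x i)) p = 0

/-- The ideal generated by the flattening equations from `m` factors, exactly as in the frozen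
statement of the problem (the blocks of the grouping `σ` may be empty). -/
noncomputable def Flat (k m : ℕ) {n : ℕ} (d : Fin n → ℕ) :
    Ideal (MvPolynomial ((i : Fin n) → Fin (d i)) ℂ) :=
  Ideal.span {r | ∃ σ : Fin n → Fin m,
    ∃ q : MvPolynomial ((b : Fin m) → ((i : {i : Fin n // σ i = b}) → Fin (d i.1))) ℂ,
      (∀ v : Fin k → (b : Fin m) → ((i : {i : Fin n // σ i = b}) → Fin (d i.1)) → ℂ,
          eval (fun g => ∑ j, ∏ b, v j b (g b)) q = 0) ∧
      r = rename (fun (g : (b : Fin m) → ((i : {i : Fin n // σ i = b}) → Fin (d i.1)))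
          (i : Fin n) => g (σ i) ⟨i, rfl⟩) q}

/-- The minor of order `k` of the flattening along `A` and its complement whose rows are the
restrictions to `A` of the words `x s` and whose columns are the restrictions to the complement of
`A` of the words `y t`: the determinant of the matrix whose entry at `(s, t)` is the coordinate at
the word equal to `x s` on `A` and to `y t` off `A`. -/
noncomputable def Minor {k n : ℕ} {d : Fin n → ℕ} (A : Finset (Fin n))
    (x y : Fin k → (i : Fin n) → Fin (d i)) : MvPolynomial ((i : Fin n) → Fin (d i)) ℂ :=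
  (Matrix.of fun s t : Fin k => (X (fun i => if i ∈ A then x s i else y t i) :
    MvPolynomial ((i : Fin n) → Fin (d i)) ℂ)).det

theorem le_flat (k m : ℕ) {n : ℕ} (d : Fin n → ℕ) :
    Pentad.FI k m (fun i => Fin (d i)) ≤ Flat k m d := by
  refine Ideal.span_le.2 ?_
  rintro p ⟨σ, hp⟩
  refine Ideal.subset_span ⟨σ, rename (Pentad.joinE σ).symm p, ?_, ?_⟩
  · intro v
    rw [eval_rename]
    refine hp (fun j b w => v j b fun i => w i.1) ?_
    intro j b w w' hw
    show v j b (fun i => w i.1) = v j b (fun i => w' i.1)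
    congr 1
    funext i
    exact hw i.1 i.2
  · rw [rename_rename]
    exact (rename_id_apply p).symm

theorem vanishes_of_flat {k m n : ℕ} {d : Fin n → ℕ}
    {p : MvPolynomial ((i : Fin n) → Fin (d i)) ℂ} (hp : p ∈ Flat k m d) : Vanishes k d p := by
  classical
  have h : Flat k m d ≤ Pentad.idVI k fun i => Fin (d i) := by
    refine Ideal.span_le.2 ?_
    rintro _ ⟨σ, q, hq, rfl⟩
    intro v
    rw [eval_rename, ← hq fun j b g => ∏ i : {i : Fin n // σ i = b}, v j i.1 (g i)]
    congr 2
    funext g
    refine Finset.sum_congr rfl fun j _ => ?_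
    rw [← (Equiv.sigmaFiberEquiv σ).prod_comp, Fintype.prod_sigma]
    refine Finset.prod_congr rfl fun b _ => Finset.prod_congr rfl fun i _ => ?_
    obtain ⟨i, rfl⟩ := i
    rfl
  exact h hp

theorem result : ∀ k : ℕ, 1 ≤ k → ∃ n₀ : ℕ, ∀ n' : ℕ, n₀ ≤ n' → ∀ n : ℕ, n' < n →
    ∀ d : Fin n → ℕ, ∃ M : ℕ, ∀ (A : Finset (Fin n)) (x y : Fin k → (i : Fin n) → Fin (d i)),
      (∀ s s', (∀ i ∈ A, x s i = x s' i) → s = s') →
      (∀ t t', (∀ i, i ∉ A → y t i = y t' i) → t = t') →
      ∀ p : MvPolynomial ((i : Fin n) → Fin (d i)) ℂ,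
        Vanishes k d p ↔ Minor A x y ^ M * p ∈ Flat k n' d := by
  intro k hk
  obtain ⟨n₀, h⟩ := Pentad.local_main k hk
  refine ⟨n₀, fun n' hn' n hn d => ?_⟩
  obtain ⟨M, hM⟩ := h n' hn' n hn d
  refine ⟨M, fun A x y hx hy p => ⟨fun hp => ?_, fun hp => ?_⟩⟩
  · exact le_flat k n' d ((hM A x y hx hy p).1 hp)
  · exact Pentad.VI_of_mul (vanishes_of_flat hp) (Pentad.not_VI_fmin A x y hx hy)

end Pool.Agent.Results.MP_b77b2b_ag.IdealLocal
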