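import Pool.Agent.H.MP_b77b2b_ag.helper16.LD4

/-!
# Flattening equations of secant varieties: the ideal statement near sums of k-1 pure tensors
which are pairwise far apart

The definitions `Vanishes` and `Flat` follow the frozen statement of the problem. All coordinates
are taken in bases, so `W_i` is `Fin (d i) → ℂ`, a tensor is a function on words
`(i : Fin n) → Fin (d i)`, and a pure tensor is a product of vectors.
-/

set_option autoImplicit false

open MvPolynomial

namespace Pool.Agent.Results.MP_b77b2b_ag.LocalFar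

/-- The polynomial `p` vanishes on all sums of `k` pure tensors, i.e. it lies in the ideal of the
`k`-th secant variety of the Segre variety with factors of dimensions `d i`. -/
def Vanishes (k : ℕ) {n : ℕ} (d : Fin n → ℕ) (p : MvPolynomial ((i : Fin n) → Fin (d i)) ℂ) :
    Prop :=
  ∀ v : Fin k → (i : Fin n) → Fin (d i) → ℂ, eval (fun x => ∑ j, ∏ i, v j i (x i)) p = 0

/-- The ideal generated by the flattening equations from `m` factors, exactly as in the frozen
statement of the problem (the blocks of the grouping `σ` may be empty). -/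
noncomputable def Flat (k m : ℕ) {n : ℕ} (d : Fin n → ℕ) :
    Ideal (MvPolynomial ((i : Fin n) → Fin (d i)) ℂ) :=
  Ideal.span {r | ∃ σ : Fin n → Fin m,
    ∃ q : MvPolynomial ((b : Fin m) → ((i : {i : Fin n // σ i = b}) → Fin (d i.1))) ℂ,
      (∀ v : Fin k → (b : Fin m) → ((i : {i : Fin n // σ i = b}) → Fin (d i.1)) → ℂ,
          eval (fun g => ∑ j, ∏ b, v j b (g b)) q = 0) ∧
      r = rename (fun (g : (b : Fin m) → ((i : {i : Fin n // σ i = b}) → Fin (d i.1)))
          (i : Fin n) => g (σ i) ⟨i, rfl⟩) q}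

theorem le_flat (k m : ℕ) {n : ℕ} (d : Fin n → ℕ) :
    Pentad.FI k m (fun i => Fin (d i)) ≤ Flat k m d := by
  refine Ideal.span_le.2 ?_
  rintro p ⟨σ, hp⟩
  refine Ideal.subset_span ⟨σ, rename (Pentad.joinE σ).symm p, ?_, ?_⟩
  · intro v
    rw [eval_rename]
    refine hp (fun j b w => v j b fun i => w i.1) ?_
    intro j b w w' hw
    show v j b (fun i => w i.1) = v j b (fun i => w' i.1)
    congr 1
    funext i
    exact hw i.1 i.2
  · rw [rename_rename]
    exact (rename_id_apply p).symm

/-- Let `p` be the sum of `r ≥ k - 1` pure tensors with nonzero vectors, any two of which are not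
proportional in at least `r ^ (r + 1) * (3 * r ^ 2 + 6 * r + 8)` factors. Then near `p` the ideal
of the `k`-th secant variety is generated by the flattening equations from `m` factors, for every
`m ≥ 2`. -/
theorem result : ∀ k r m n : ℕ, k ≤ r + 1 → 2 ≤ m → 0 < n → ∀ (d : Fin n → ℕ)
    (v : Fin r → (i : Fin n) → Fin (d i) → ℂ), (∀ l i, v l i ≠ 0) →
    (∀ l l', l ≠ l' → r ^ (r + 1) * (3 * r ^ 2 + 6 * r + 8)
      ≤ Nat.card {i : Fin n // ∀ c : ℂ, v l i ≠ c • v l' i}) →
    ∃ h : MvPolynomial ((i : Fin n) → Fin (d i)) ℂ,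
      eval (fun x => ∑ l, ∏ i, v l i (x i)) h ≠ 0 ∧
        ∀ p, Vanishes k d p → h * p ∈ Flat k m d := by
  intro k r m n hr hm hn d v hv hfar
  obtain ⟨h, h1, h2⟩ := Pentad.Gen.local_far hr hm hn d v hv (fun l l' hll => by
    refine le_trans (le_of_eq ?_) (hfar l l' hll)
    unfold Pentad.Gen.big
    ring)
  exact ⟨h, h1, fun p hp => le_flat k m d (h2 p hp)⟩

end Pool.Agent.Results.MP_b77b2b_ag.LocalFar
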